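import Pool.Agent.Y460.DU.Reg

/-!
# MP_b7d892_co: the nim-values of Duotaire grow linearly and take all values

For every length `n ≥ 1` the nim-values of the positions with `n` cells are exactly the numbers
`0, 1, …, M` for some `M` with `(n - 5) / 5 ≤ M ≤ (2 n - 2) / 3`. So the nim-values are unbounded
(Q1), each value `k` is taken by some position of each length `n ≥ 5 k + 1`, and the largest
nim-value of the positions with `n` cells has exactly linear growth. Moreover a position with `p ≥ 1`
pegs has the nim-value at most `p - 1`, and for each finite nonempty set `S` of numbers the positions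
with nim-value in `S`, and their complement, do not form a regular language; with `S = {0}` these are
the P-positions and the N-positions.
-/

set_option autoImplicit false

namespace Pool.Agent.Results.MP_b7d892_co.LinearGrowth

open Pool.Agent.Helper701.Duo Pool.Agent.Y460.DU

/-- the block `1101101010` -/
def block : List Bool := [true, true, false, true, true, false, true, false, true, false]

/-- `m` copies of the block -/
def blocks (m : ℕ) : List Bool := (List.replicate m block).flatten

theorem rep_eq (m : ℕ) : rep m = blocks m := by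
  induction m with
  | zero => rfl
  | succ m ih =>
    rw [rep, ih, blocks, blocks, List.replicate_succ, List.flatten_cons]
    rfl

theorem result :
    (∀ k : ℕ, ∃ w : List Bool, w ≠ [] ∧ k ≤ nim w) ∧
    (∀ n : ℕ, 1 ≤ n → ∃ M : ℕ, {k | ∃ w : List Bool, w.length = n ∧ nim w = k} = Set.Iic M ∧
      n ≤ 5 * M + 5 ∧ 3 * M + 2 ≤ 2 * n) ∧
    (∀ k n : ℕ, 5 * k + 1 ≤ n → ∃ w : List Bool, w.length = n ∧ nim w = k) ∧
    (∀ m j : ℕ, 1 ≤ m → nim (true :: (blocks m ++ List.replicate j false)) = 2 * m ∧
      nim (true :: (blocks m ++ false :: false :: true :: true :: List.replicate j false)) =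
        2 * m + 1) ∧
    (∀ w : List Bool, true ∈ w → nim w + 1 ≤ w.count true) ∧
    ∀ S : Finset ℕ, S.Nonempty → ¬ (valueIn S).IsRegular ∧ ¬ (valueIn S)ᶜ.IsRegular := by
  refine ⟨fun k => ⟨pos k (5 * k + 1), ?_, ?_⟩, values, fun k n h => ⟨pos k n, pos_length h,
    nim_pos k n⟩, fun m j hm => ?_, fun w hw => ?_, fun S hS => ⟨not_regular S hS, fun h => ?_⟩⟩
  · intro h
    have h1 := pos_length (k := k) (n := 5 * k + 1) le_rfl
    rw [h] at h1
    simp at h1
  · rw [nim_pos]
  · have h1 := nim_pos (2 * m) (10 * m + 1 + j)
    have h2 := nim_pos (2 * m + 1) (10 * m + 5 + j)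
    rw [pos, if_neg (by omega), if_neg (by omega), if_pos (by omega), rep_eq,
      show 2 * m / 2 = m by omega, show 10 * m + 1 + j - (5 * (2 * m) + 1) = j by omega] at h1
    rw [pos, if_neg (by omega), if_neg (by omega), if_neg (by omega), rep_eq,
      show (2 * m + 1) / 2 = m by omega, show 10 * m + 5 + j - 5 * (2 * m + 1) = j by omega] at h2
    exact ⟨h1, h2⟩
  · exact nim_count _ w rfl (List.one_le_count_iff.2 hw)
  · exact not_regular S hS h.of_compl

end Pool.Agent.Results.MP_b7d892_co.LinearGrowth
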